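import Pool.Agent.MP_1246c0_nt.H25.SpecA
import Pool.Agent.MP_1246c0_nt.H9.RD

/-! Reciprocity passes to quadratic extensions. -/

namespace Pool.Agent.MP_1246c0_nt.H25

open NumberField IsDedekindDomain Pool.Agent.MP_db5b97_nt Pool.Agent.MP_db5b97_nt.H85
open Pool.Agent.MP_1246c0_nt.H12

namespace RDG

variable {F F' : Type} [Field F] [NumberField F] [Field F'] [NumberField F'] [Algebra F F']

omit [NumberField F] [NumberField F'] in
theorem inc_Rl {x : F} : algebraMap F F' x ∈ Rl F' 2 ↔ x ∈ Rl F 2 :=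
  exists_congr fun s => and_congr_right fun _ => by
    rw [← map_natCast (algebraMap F F'), ← map_mul,
      isIntegral_algebraMap_iff (algebraMap F F').injective]

theorem conj (h : Module.finrank F F' = 2) : ∃ g : F' ≃ₐ[F] F', g ≠ 1 ∧ (∀ y, g (g y) = y) ∧
    ∀ y, g y = y → ∃ x, algebraMap F F' x = y := by
  have : Algebra.IsQuadraticExtension F F' := ⟨h⟩
  obtain ⟨g, hg, hu⟩ := (Nat.card_eq_two_iff' 1).1 ((IsGalois.card_aut_eq_finrank F F').trans h)
  refine ⟨g, hg, fun y => ?_, fun y hy => (IsGalois.mem_range_algebraMap_iff_fixed y).2 fun f => ?_⟩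
  · rw [← AlgEquiv.mul_apply, show g * g = 1 from by_contra fun e => hg (mul_eq_left.1 (hu _ e))]
    rfl
  · by_cases e : f = 1
    · rw [e]; rfl
    · rw [hu f e, hy]

theorem pick (hW : SWA) (p : F) {δ : F} (hδ : δ ∈ Rl F 2) :
    ∃ t ∈ Rl F 2, (p * t + δ) / (p + t) ∈ Rl F 2 := by
  classical
  have := Pl_finite (F := F) (l := 2) two_ne_zero
  obtain ⟨b, hb, -⟩ := hW F (Set.finite_range fun w : Pl F 2 => w.1).toFinset
    (fun w => if w.valuation F p = 1 then Un.mk ((2 : ℕ) : F) (by simp) else 0) 1 ∅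
  have h1 : ∀ w : Sp F, ((2 : ℕ) : 𝓞 F) ∈ w.asIdeal → w.valuation F b.val ≤ 1 ∧
      w.valuation F p ≤ w.valuation F (p + b.val) ∧ 1 ≤ w.valuation F (p + b.val) := by
    intro w hw
    have h2 := (hb w (by simpa using ⟨⟨w, hw⟩, rfl⟩)).trans_lt
      (show WithZero.exp (-((1 : ℕ) : ℤ)) < 1 by rw [← WithZero.exp_zero, WithZero.exp_lt_exp]; simp)
    have h3 := Valuation.map_one_add_of_lt _ h2
    rw [add_sub_cancel, Un.val_sub, map_div₀, div_eq_one_iff_eq (by simp)] at h3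
    by_cases e : w.valuation F p = 1
    · rw [if_pos e, Un.val_mk] at h3
      have h4 := h3.trans_lt (val_nat_lt_one hw)
      rw [Valuation.map_add_eq_of_lt_left _ (h4.trans_eq e.symm), e]
      exact ⟨h4.le, le_rfl, le_rfl⟩
    · rw [if_neg e, Un.val_zero, map_one] at h3
      rw [Valuation.map_add_of_distinct_val _ (h3 ▸ e), h3]
      exact ⟨le_rfl, le_max_left _ _, le_max_right _ _⟩
  refine ⟨b.val, (mem_Rl_iff two_ne_zero).2 fun w hw => (h1 w hw).1,
    (mem_Rl_iff two_ne_zero).2 fun w hw => ?_⟩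
  rw [map_div₀]
  refine div_le_one_of_le₀ (Valuation.map_add_le _ ?_
    (((mem_Rl_iff two_ne_zero).1 hδ w hw).trans (h1 w hw).2.2)) zero_le
  rw [map_mul]
  exact (mul_le_of_le_one_right' (h1 w hw).1).trans (h1 w hw).2.1

end RDG

open RDG in
theorem rowRDG : OfRDG := by
  rintro hA hB hW F F' _ _ _ _ _ hrk hreal ⟨m, hm⟩
  have hP := hB F F' hrk hreal
  obtain ⟨g, g1, hgg, hr⟩ := conj hrk
  have gR : ∀ y ∈ Rl F' 2, g y ∈ Rl F' 2 := fun y ⟨s, hs, h⟩ =>
    ⟨s, hs, by simpa using h.map (g.toAlgHom.restrictScalars ℤ)⟩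
  obtain ⟨x, hx⟩ : ∃ x, g x ≠ x := not_forall.1 fun h => g1 (AlgEquiv.ext h)
  have x0 : x - g x ≠ 0 := sub_ne_zero.2 hx.symm
  obtain ⟨k, ht⟩ := exists_pow_div_mem (l := 2) two_ne_zero (inv_ne_zero x0)
  obtain ⟨t, et⟩ : ∃ t, t = ((2 : ℕ) : F') ^ k / (x - g x)⁻¹ := ⟨_, rfl⟩
  rw [← et] at ht
  have h0 : t ≠ 0 := by simp [et, x0]
  have hgt : g t = -t := by
    rw [et, div_inv_eq_mul, map_mul, map_pow, map_natCast, map_sub, hgg]
    ring
  obtain ⟨δ, hδ⟩ := hr (t ^ 2) (by rw [map_pow, hgt, neg_sq])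
  obtain ⟨c, hc⟩ := exists_pow_div_mem (l := 2) two_ne_zero h0
  have dec : ∀ y : F', ∃ y₀ y₁ : F, algebraMap F F' y₀ = (y + g y) / 2 ∧
      algebraMap F F' y₁ = (y - g y) / (2 * t) ∧
      y = algebraMap F F' y₀ + algebraMap F F' y₁ * t := fun y => by
    obtain ⟨y₀, e₀⟩ := hr ((y + g y) / 2) (by rw [map_div₀, map_add, hgg, map_ofNat, add_comm])
    obtain ⟨y₁, e₁⟩ := hr ((y - g y) / (2 * t)) (by
      rw [map_div₀, map_sub, hgg, map_mul, map_ofNat, hgt]
      field_simp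
      ring)
    refine ⟨y₀, y₁, e₀, e₁, ?_⟩
    rw [e₀, e₁]
    field_simp
    ring
  refine ⟨m + 1 + c + 1, fun a ha b => ?_⟩
  have H : ∀ x ∈ Ray F 2 (m + 1), ∀ c : Un F', dy (Un.inc F F' x) c = 0 :=
    fun x hx c => by rw [hP, hm x (Ray_anti (by omega) hx)]
  have H' : ∀ y : Un F, dy a (Un.inc F F' y) = 0 := fun y => by
    rw [hA.symm, hP, hA.symm]
    exact hm _ (Ray_anti (by omega) (H10.rowNT1.nrm_Ray F F' 2 _ two_ne_zero a ha)) y
  obtain ⟨y, hy, ea⟩ := (mem_Ray_iff two_ne_zero (by omega)).1 ha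
  obtain ⟨a₀, a₁, e₀, e₁, e₂⟩ := dec a.val
  have hga : g a.val = 1 + 2 ^ (m + 1 + c + 1) * g y := by
    rw [ea, map_add, map_one, map_mul, map_pow, map_natCast, Nat.cast_ofNat]
  have key₀ := RD.step hA (m + 1) (by omega) H a H' t (((2 : ℕ) : F') ^ c * (y + g y))
    (((2 : ℕ) : F') ^ c / t * (y - g y)) a₀ a₁ e₂
    (mul_mem (pow_mem (natCast_mem _ 2) c) (add_mem hy (gR y hy)))
    (mul_mem hc (sub_mem hy (gR y hy)))
    (by
      rw [e₀, hga, ea]
      push_cast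
      ring)
    (by
      rw [e₁, hga, ea]
      push_cast
      field_simp
      ring)
  have key : ∀ (b : Un F') (b₀ b₁ : F), b.val = algebraMap F F' b₀ + algebraMap F F' b₁ * t →
      b₀ / b₁ ∈ Rl F 2 ∨ b₁ = 0 → dy a b = 0 := fun b b₀ b₁ e h => by
    by_cases h1 : b₁ = 0
    · have h2 : b₀ ≠ 0 := fun h2 => b.val_ne (by simp [e, h1, h2])
      rw [show b = Un.inc F F' (Un.mk b₀ h2) from Un.ext (by simp [e, h1])]
      exact H' _
    · exact key₀ b b₀ b₁ e h1 (map_div₀ (algebraMap F F') _ _ ▸ inc_Rl.2 (h.resolve_right h1))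
  obtain ⟨b₀, b₁, -, -, eb⟩ := dec b.val
  by_cases h1 : b₁ = 0
  · exact key b b₀ b₁ eb (Or.inr h1)
  obtain ⟨s, hs, hs'⟩ := pick hW (b₀ / b₁) (inc_Rl.1 (hδ ▸ pow_mem ht 2))
  have hne : algebraMap F F' s + t ≠ 0 := fun e => h0 (by
    have := congrArg g e
    rw [map_add, g.commutes, hgt, map_zero] at this
    linear_combination (e - this) / 2)
  have k1 := key (Un.mk _ hne) s 1 (by simp) (Or.inl (by simpa using hs))
  have k2 := key (b + Un.mk _ hne) (b₀ * s + b₁ * δ) (b₀ + b₁ * s) (by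
    simp only [Un.val_add, Un.val_mk, map_add, map_mul, hδ, eb]
    ring) (Or.inl (by
      rw [← div_div_div_cancel_right₀ h1]
      convert hs' using 2 <;> field_simp))
  rw [hA.symm, hA.add, hA.symm, hA.symm _ (Un.mk _ hne), k1, add_zero] at k2
  exact k2

end Pool.Agent.MP_1246c0_nt.H25
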