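import Pool.Agent.MP_1246c0_nt.H25.SpecN

/-! The mean of the counting function. -/

namespace Pool.Agent.MP_1246c0_nt.H25

open Finset Matrix Filter Function Pool.Agent.MP_db5b97_nt.H85
open Pool.Agent.MP_1246c0_nt.H12

theorem rowREC : OfREC := by
  intro hZ hG hL ℓ κ J μ S η hS hμ hJ hη
  have key : ∀ i : ℕ, i + 3 ≤ J → ∀ η : ℝ, 0 < η → ∀ᶠ X : ℕ in atTop,
      GS X (fun Sg _ i1 p P => ind (Gg S.Φ μ κ X (prs Sg p) P (.inl i1)) *
        zz S.Φ μ (prs Sg p) P (i + 3)) ≤ (4 ^ κ / 2 ^ (ℓ * i) + η) * X := by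
    intro i
    induction i with
    | zero =>
      refine fun _ η hη => Eventually.of_forall fun X => ?_
      refine (hG.mono X _ (fun _ _ _ _ _ => 4 ^ κ) fun Sg m i1 p P hv => ?_).trans
        ((hG.tot X _ (by positivity)).trans ?_)
      · unfold ind
        split_ifs with h
        · have a := (hZ _ ℓ S μ _ P J _ hS hv.lb hμ hJ).2.1.trans (Nat.pow_le_pow_left h.card 2)
          rw [← pow_mul, mul_comm, pow_mul] at a
          rw [one_mul]
          exact_mod_cast a
        · rw [zero_mul]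
          positivity
      · rw [mul_zero, pow_zero, div_one]
        exact mul_le_mul_of_nonneg_right (by linarith) (Nat.cast_nonneg X)
    | succ i ih =>
      intro hi η hη
      filter_upwards [ih (by omega) (η / 2) (by positivity),
        hL ℓ (i + 2) κ J μ S (η / 2) hS hμ (by omega) (by omega) (by positivity)] with X a b
      have h2 : (0 : ℝ) < 2 ^ ℓ := by positivity
      have h1 : (1 : ℝ) ≤ 2 ^ ℓ := one_le_pow₀ one_le_two
      have c := hG.mono X (fun Sg _ i1 p P => 2 ^ ℓ * (ind (Gg S.Φ μ κ X (prs Sg p) P (.inl i1)) *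
          zz S.Φ μ (prs Sg p) P (i + 1 + 3)))
        (fun Sg _ i1 p P => ind (Gg S.Φ μ κ X (prs Sg p) P (.inl i1)) *
          zz S.Φ μ (prs Sg p) P (i + 3) + ind (Gg S.Φ μ κ X (prs Sg p) P (.inl i1)) *
            cs S.Φ μ (prs Sg p) P (.inl i1) (i + 2 + 1)) fun Sg m i1 p P hv => by
        rw [mul_left_comm, ← mul_add]
        refine mul_le_mul_of_nonneg_left
          ((hZ _ ℓ S μ _ P J _ hS hv.lb hμ hJ).2.2 (i + 3) (by omega) (by omega)) ?_
        unfold ind
        split_ifs <;> norm_num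
      rw [hG.mul, hG.add] at c
      refine le_of_mul_le_mul_left (c.trans ((add_le_add a b).trans ?_)) h2
      have e : (2 : ℝ) ^ ℓ * ((4 ^ κ / 2 ^ (ℓ * (i + 1)) + η) * X)
          = (4 ^ κ / 2 ^ (ℓ * i) + 2 ^ ℓ * η) * X := by
        rw [mul_add ℓ, mul_one, pow_add]
        field_simp
      rw [e, ← add_mul]
      exact mul_le_mul_of_nonneg_right (by nlinarith) (Nat.cast_nonneg X)
  obtain ⟨i, rfl⟩ : ∃ i, J = i + 3 := ⟨J - 3, by omega⟩
  simpa only [Nat.add_sub_cancel] using key i le_rfl η hη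

end Pool.Agent.MP_1246c0_nt.H25
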